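import Pool.Agent.Work.MP_2738db_nt_ZZ.Interface
import Pool.Agent.Work.MP_2738db_nt_Y_helper16.FINW

set_option autoImplicit false

/-!
Final assembly of the THIRD BASE theorem.
-/

namespace Pool.Agent.Work.MP_2738db_nt_ZZ.helper16

open Finset Filter
open Pool.Agent.Work.MP_2738db_nt_Y.helper16 (exists_p)

/-- powers against powers of logarithms -/
lemma pow_conv (a δ : ℝ) (ha : 0 < a) (hδ : 0 < δ) : ∃ C : ℝ, 0 ≤ C ∧ ∀ N : ℕ, 2 ≤ N →
    (N : ℝ) ^ (1 - a) ≤ C * N / Real.log N ^ δ := by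
  refine ⟨(δ / a) ^ δ, by positivity, ?_⟩
  intro N hN
  have hN1 : (1 : ℝ) < N := by exact_mod_cast (by omega : 1 < N)
  have hN0 : (0 : ℝ) < N := by linarith
  have hl : 0 < Real.log N := Real.log_pos hN1
  have h1 : Real.log N ≤ (N : ℝ) ^ (a / δ) / (a / δ) :=
    Real.log_le_rpow_div hN0.le (by positivity)
  have h2 : Real.log N ^ δ ≤ ((N : ℝ) ^ (a / δ) / (a / δ)) ^ δ :=
    Real.rpow_le_rpow hl.le h1 hδ.le
  have h3 : ((N : ℝ) ^ (a / δ) / (a / δ)) ^ δ = (N : ℝ) ^ a * (δ / a) ^ δ := by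
    rw [div_eq_mul_inv, Real.mul_rpow (by positivity) (by positivity), ← Real.rpow_mul hN0.le,
      div_mul_cancel₀ _ hδ.ne', inv_div]
  rw [h3] at h2
  have hlδ : 0 < Real.log N ^ δ := Real.rpow_pos_of_pos hl δ
  rw [le_div_iff₀ hlδ]
  have h4 : (N : ℝ) ^ (1 - a) * (N : ℝ) ^ a = N := by
    rw [← Real.rpow_add hN0, sub_add_cancel, Real.rpow_one]
  calc (N : ℝ) ^ (1 - a) * Real.log N ^ δ ≤ (N : ℝ) ^ (1 - a) * ((N : ℝ) ^ a * (δ / a) ^ δ) :=
        mul_le_mul_of_nonneg_left h2 (by positivity)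
    _ = ((N : ℝ) ^ (1 - a) * (N : ℝ) ^ a) * (δ / a) ^ δ := by ring
    _ = (δ / a) ^ δ * N := by rw [h4]; ring

lemma finite_set (N : ℕ) (P : ℕ → Prop) : {c : ℕ | 1 ≤ c ∧ c ≤ N ∧ P c}.Finite := by
  apply (Set.finite_Icc 1 N).subset
  rintro c ⟨h1, h2, _⟩
  exact ⟨h1, h2⟩

lemma ncard_le_N (N : ℕ) (P : ℕ → Prop) : ({c : ℕ | 1 ≤ c ∧ c ≤ N ∧ P c}.ncard : ℝ) ≤ N := by
  have h1 : {c : ℕ | 1 ≤ c ∧ c ≤ N ∧ P c} ⊆ ↑(Finset.Icc 1 N) := by
    rintro c ⟨h1, h2, _⟩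
    simp [h1, h2]
  have h2 := Set.ncard_le_ncard h1 (Finset.finite_toSet _)
  rw [Set.ncard_coe_finset, Nat.card_Icc] at h2
  exact_mod_cast (by omega : {c : ℕ | 1 ≤ c ∧ c ≤ N ∧ P c}.ncard ≤ N)

/-- the inequalities for large `N` -/
lemma large (a : ℝ) (ha : 0 < a) : ∃ N₀ : ℕ, 3 ≤ N₀ ∧ ∀ N : ℕ, N₀ ≤ N →
    10 * (1 + Real.log N) ^ 2 ≤ (N : ℝ) ^ a ∧ 1 ≤ Real.log N ∧
      Real.log N < Real.log 2 * (N : ℝ) ^ a := by
  have h1 : Tendsto (fun N : ℕ => (N : ℝ) ^ (a / 2)) atTop atTop :=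
    (tendsto_rpow_atTop (by positivity)).comp tendsto_natCast_atTop_atTop
  have h2 := h1.eventually_ge_atTop (40 * (4 / a) ^ 2 + 1)
  obtain ⟨N₁, hN₁⟩ := eventually_atTop.mp h2
  refine ⟨max N₁ 3, le_max_right _ _, ?_⟩
  intro N hN
  have hN3 : 3 ≤ N := le_trans (le_max_right _ _) hN
  have hN0 : (0 : ℝ) < N := by exact_mod_cast (by omega : 0 < N)
  have h3 := hN₁ N (le_trans (le_max_left _ _) hN)
  have hl1 : 1 ≤ Real.log N := by
    rw [Real.le_log_iff_exp_le hN0]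
    have h4 := Real.exp_one_lt_d9
    have h5 : (3 : ℝ) ≤ N := by exact_mod_cast hN3
    linarith
  have h4 : Real.log N ≤ (N : ℝ) ^ (a / 4) / (a / 4) :=
    Real.log_le_rpow_div hN0.le (by positivity)
  have h5 : Real.log N ^ 2 ≤ (4 / a) ^ 2 * (N : ℝ) ^ (a / 2) := by
    have h6 : Real.log N ^ 2 ≤ ((N : ℝ) ^ (a / 4) / (a / 4)) ^ 2 :=
      pow_le_pow_left₀ (by linarith) h4 2
    have h7 : ((N : ℝ) ^ (a / 4) / (a / 4)) ^ 2 = (4 / a) ^ 2 * (N : ℝ) ^ (a / 2) := by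
      rw [div_pow, ← Real.rpow_natCast, ← Real.rpow_mul hN0.le]
      have : a / 4 * ((2 : ℕ) : ℝ) = a / 2 := by push_cast; ring
      rw [this]
      field_simp
    rw [h7] at h6
    exact h6
  have h6 : (N : ℝ) ^ a = (N : ℝ) ^ (a / 2) * (N : ℝ) ^ (a / 2) := by
    rw [← Real.rpow_add hN0]; congr 1; ring
  have hpos : 0 < (N : ℝ) ^ (a / 2) := Real.rpow_pos_of_pos hN0 _
  have h7 : 40 * ((4 / a) ^ 2 * (N : ℝ) ^ (a / 2)) ≤ (N : ℝ) ^ a := by
    rw [h6]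
    have h8 : 40 * (4 / a) ^ 2 ≤ (N : ℝ) ^ (a / 2) := by linarith
    calc 40 * ((4 / a) ^ 2 * (N : ℝ) ^ (a / 2)) = (40 * (4 / a) ^ 2) * (N : ℝ) ^ (a / 2) := by ring
      _ ≤ _ := mul_le_mul_of_nonneg_right h8 hpos.le
  have h8 : 40 * Real.log N ^ 2 ≤ (N : ℝ) ^ a := by linarith
  refine ⟨?_, hl1, ?_⟩
  · nlinarith
  · have h9 := Real.log_two_gt_d9
    have h10 : 0 < (N : ℝ) ^ a := Real.rpow_pos_of_pos hN0 _
    have h11 : Real.log N ≤ Real.log N ^ 2 := by nlinarith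
    nlinarith

/-- **THIRD BASE** -/
theorem finz (h1 : Stmt_O1) (h2 : Stmt_O2) (h3 : Stmt_O3) (h4 : Stmt_O4) (hm : Stmt_M4)
    (hp : Stmt_P2) : Stmt_ZZ := by
  obtain ⟨C₁, δ₁, hδ1, hδ1', g1⟩ := h1
  obtain ⟨C₂, g2⟩ := h2
  obtain ⟨η, hη0, hη1, g3⟩ := h3
  obtain ⟨C₃, g3⟩ := g3 (δ₁ / 2) (by linarith) (by linarith)
  obtain ⟨C₄, δ₄, hδ4, g4⟩ := h4 η hη0 hη1
  obtain ⟨C₅, δ₅, hδ5, g5⟩ := hm
  obtain ⟨C₆, δ₆, hδ6, g6⟩ := hp
  obtain ⟨N₀, hN03, hlarge⟩ := large (δ₁ / 3) (by linarith)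
  set δ : ℝ := min δ₄ δ₆ with hδdef
  have hδ : 0 < δ := lt_min hδ4 hδ6
  obtain ⟨E₁, hE1, e1⟩ := pow_conv δ₁ δ hδ1 hδ
  obtain ⟨E₂, hE2, e2⟩ := pow_conv (1 / 2) δ (by norm_num) hδ
  obtain ⟨E₂', hE2', e2'⟩ := pow_conv (δ₁ / 6) δ (by linarith) hδ
  obtain ⟨E₃, hE3, e3⟩ := pow_conv (δ₁ / 2 / 4) δ (by linarith) hδ
  obtain ⟨E₅, hE5, e5⟩ := pow_conv δ₅ δ hδ5 hδ
  obtain ⟨E₇, hE7, e7⟩ := pow_conv 1 δ one_pos hδ
  refine ⟨(|C₁| * E₁ + |C₂| * (E₂ + (12 / δ₁) ^ 2 * 4 * E₂') + |C₃| * E₃ + |C₄| + |C₅| * E₅ + |C₆| +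
    E₇) + Real.log N₀ ^ δ, δ, hδ, ?_⟩
  intro N hN
  have hN1 : (1 : ℝ) < N := by exact_mod_cast (by omega : 1 < N)
  have hN0 : (0 : ℝ) < N := by linarith
  have hl : 0 < Real.log N := Real.log_pos hN1
  have hlδ : 0 < Real.log N ^ δ := Real.rpow_pos_of_pos hl δ
  have hQ0 : 0 ≤ (N : ℝ) / Real.log N ^ δ := by positivity
  have hl0 : 0 ≤ Real.log N₀ := Real.log_natCast_nonneg _
  have hK0 : 0 ≤ |C₁| * E₁ + |C₂| * (E₂ + (12 / δ₁) ^ 2 * 4 * E₂') + |C₃| * E₃ + |C₄| +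
      |C₅| * E₅ + |C₆| + E₇ := by positivity
  rw [mul_div_assoc]
  by_cases hNN : N < N₀
  · -- trivial
    refine (ncard_le_N N _).trans ?_
    have h5 : Real.log N ^ δ ≤ Real.log N₀ ^ δ := by
      apply Real.rpow_le_rpow hl.le _ hδ.le
      exact Real.log_le_log hN0 (by exact_mod_cast hNN.le)
    have h6 : (N : ℝ) ≤ Real.log N₀ ^ δ * (N / Real.log N ^ δ) := by
      rw [mul_div_assoc', le_div_iff₀ hlδ, mul_comm]
      exact mul_le_mul_of_nonneg_right h5 hN0.le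
    have h7 := mul_nonneg hK0 hQ0
    rw [add_mul]
    linarith
  rw [not_lt] at hNN
  obtain ⟨hL1, hL2, hL3⟩ := hlarge N hNN
  -- the sets
  set S₁ : Set ℕ := {c : ℕ | 1 ≤ c ∧ c ≤ N ∧ ∃ p k : ℕ, p.Prime ∧ 3 ≤ p ∧ 1 ≤ k ∧
      ((p * k : ℕ) : ℝ) ≤ (N : ℝ) ^ δ₁ ∧ ∃ x Y : ℤ, IsCoprime x Y ∧
        x ^ p - Y ^ p = (c : ℤ) ^ k} with hS1
  set K₀ : ℕ := ⌈(N : ℝ) ^ (δ₁ / 3)⌉₊ with hK₀
  have hK₀le : (N : ℝ) ^ (δ₁ / 3) ≤ K₀ := Nat.le_ceil _
  set S₂ : Set ℕ := {c : ℕ | 1 ≤ c ∧ c ≤ N ∧ ∃ p k : ℕ, p.Prime ∧ 3 ≤ p ∧ K₀ ≤ k ∧ Pl p c k}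
    with hS2
  set S₃ : Set ℕ := {c : ℕ | 1 ≤ c ∧ c ≤ N ∧ ∃ p k : ℕ, p.Prime ∧ 3 ≤ p ∧
      (p : ℝ) ≤ Real.log N ^ η ∧ (N : ℝ) ^ (δ₁ / 2) ≤ k ∧ Mi p c k} with hS3
  set S₄ : Set ℕ := {c : ℕ | 1 ≤ c ∧ c ≤ N ∧ ∃ p k : ℕ, p.Prime ∧ 3 ≤ p ∧
      Real.log N ^ η < (p : ℝ) ∧ 1 ≤ k ∧ Mi p c k} with hS4
  set S₅ : Set ℕ := {c : ℕ | 1 ≤ c ∧ c ≤ N ∧ ∃ k : ℕ, 1 ≤ k ∧ Mi 4 c k} with hS5
  set S₆ : Set ℕ := {c : ℕ | 1 ≤ c ∧ c ≤ N ∧ ∃ k : ℕ, 1 ≤ k ∧ Pl 2 c k} with hS6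
  set B : Set ℕ := {c : ℕ | 1 ≤ c ∧ c ≤ N ∧ ∃ a b m n k : ℕ, 1 ≤ a ∧ 1 ≤ b ∧ Nat.Coprime a b ∧
      1 ≤ m ∧ 1 ≤ n ∧ 1 ≤ k ∧ 3 ≤ Nat.gcd m n ∧
      (a ^ m + b ^ n = c ^ k ∨ b ^ n + c ^ k = a ^ m)} with hB
  have hsub : B ⊆ ((((((S₁ ∪ S₂) ∪ S₃) ∪ S₄) ∪ S₅) ∪ S₆) ∪ ({2} : Set ℕ)) := by
    rintro c ⟨hc1, hcN, a, b, m, n, k, ha, hb, hab, hm1, hn1, hk1, hg, heq⟩
    obtain ⟨p, hpg, hp⟩ := exists_p hg
    obtain ⟨m', hm'⟩ := hpg.trans (Nat.gcd_dvd_left m n)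
    obtain ⟨n', hn'⟩ := hpg.trans (Nat.gcd_dvd_right m n)
    have ha' : a ^ m = (a ^ m') ^ p := by rw [hm', mul_comm, pow_mul]
    have hb' : b ^ n = (b ^ n') ^ p := by rw [hn', mul_comm, pow_mul]
    have hx : 1 ≤ a ^ m' := Nat.one_le_pow _ _ ha
    have hy : 1 ≤ b ^ n' := Nat.one_le_pow _ _ hb
    have hxy : Nat.Coprime (a ^ m') (b ^ n') := Nat.Coprime.pow _ _ hab
    rw [ha', hb'] at heq
    set x := a ^ m' with hxdef
    set y := b ^ n' with hydef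
    rcases hp with ⟨hp, hp3⟩ | hp
    · have hodd : Odd p := hp.odd_of_ne_two (by omega)
      rcases heq with heq | heq
      · -- a sum of two p-th powers
        have hpl : Pl p c k := ⟨x, y, hx, hy, hxy, heq⟩
        by_cases h5 : ((p * k : ℕ) : ℝ) ≤ (N : ℝ) ^ δ₁
        · left; left; left; left; left; left
          refine ⟨hc1, hcN, p, k, hp, hp3, hk1, h5, x, -(y : ℤ), ?_, ?_⟩
          · rw [IsCoprime.neg_right_iff]
            exact Nat.isCoprime_iff_coprime.mpr hxy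
          · rw [hodd.neg_pow, sub_neg_eq_add]
            exact_mod_cast heq
        · by_cases h6 : K₀ ≤ k
          · left; left; left; left; left; right
            exact ⟨hc1, hcN, p, k, hp, hp3, h6, hpl⟩
          · rw [not_le] at h5 h6
            by_cases h11 : x = 1 ∧ y = 1
            · right
              rw [h11.1, h11.2, one_pow] at heq
              have h7 : c ^ k = 2 := heq.symm
              have h8 : c ∣ 2 := by
                rw [← h7]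
                exact dvd_pow_self c (by omega)
              have h9 : c = 1 ∨ c = 2 := (Nat.dvd_prime Nat.prime_two).mp h8
              rcases h9 with h9 | h9
              · rw [h9, one_pow] at h7; omega
              · exact h9
            · exfalso
              have h7 : (k : ℝ) < (N : ℝ) ^ (δ₁ / 3) := Nat.lt_ceil.mp h6
              have h8 : 2 ^ p ≤ c ^ k := by
                rw [← heq]
                have h9 : 2 ≤ x ∨ 2 ≤ y := by
                  by_contra hcon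
                  push Not at hcon
                  exact h11 ⟨by omega, by omega⟩
                rcases h9 with h9 | h9
                · exact le_trans (Nat.pow_le_pow_left h9 p) (Nat.le_add_right _ _)
                · exact le_trans (Nat.pow_le_pow_left h9 p) (Nat.le_add_left _ _)
              have h9 : (p : ℝ) * Real.log 2 ≤ k * Real.log N := by
                have h10 : (2 : ℝ) ^ p ≤ (N : ℝ) ^ k := by
                  calc (2 : ℝ) ^ p ≤ (c : ℝ) ^ k := by exact_mod_cast h8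
                    _ ≤ (N : ℝ) ^ k := pow_le_pow_left₀ (Nat.cast_nonneg _) (by exact_mod_cast hcN) k
                have h12 := Real.log_le_log (by positivity) h10
                rwa [Real.log_pow, Real.log_pow] at h12
              push_cast at h5
              have hk0 : (0 : ℝ) < k := by exact_mod_cast hk1
              set t := (N : ℝ) ^ (δ₁ / 3) with ht
              have ht3 : (N : ℝ) ^ δ₁ = t * t * t := by
                rw [ht, ← Real.rpow_add hN0, ← Real.rpow_add hN0]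
                congr 1; ring
              have ht0 : 0 < t := Real.rpow_pos_of_pos hN0 _
              rw [ht3] at h5
              have h13 : t * t < p := by
                by_contra hcon
                rw [not_lt] at hcon
                have h14 : (p : ℝ) * k ≤ (t * t) * k := mul_le_mul_of_nonneg_right hcon hk0.le
                have h15 : (t * t) * k < (t * t) * t := by
                  apply mul_lt_mul_of_pos_left h7 (by positivity)
                linarith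
              have h14 := Real.log_two_gt_d9
              have h15 : (t * t) * Real.log 2 < k * Real.log N :=
                lt_of_lt_of_le (mul_lt_mul_of_pos_right h13 (by linarith)) h9
              have h16 : k * Real.log N ≤ t * Real.log N := mul_le_mul_of_nonneg_right h7.le hl.le
              have h17 : t * Real.log N < t * (Real.log 2 * t) := mul_lt_mul_of_pos_left hL3 ht0
              have h18 : t * (Real.log 2 * t) = (t * t) * Real.log 2 := by ring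
              linarith
      · -- a difference of two p-th powers
        have hmi : Mi p c k := ⟨x, y, hy, hxy, heq⟩
        by_cases h5 : Real.log N ^ η < (p : ℝ)
        · left; left; left; right
          exact ⟨hc1, hcN, p, k, hp, hp3, h5, hk1, hmi⟩
        · rw [not_lt] at h5
          by_cases h6 : (N : ℝ) ^ (δ₁ / 2) ≤ k
          · left; left; left; left; right
            exact ⟨hc1, hcN, p, k, hp, hp3, h5, h6, hmi⟩
          · rw [not_le] at h6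
            left; left; left; left; left; left
            refine ⟨hc1, hcN, p, k, hp, hp3, hk1, ?_, x, y, Nat.isCoprime_iff_coprime.mpr hxy, ?_⟩
            · push_cast
              have h7 : Real.log N ^ η ≤ (N : ℝ) ^ (δ₁ / 2) := by
                have h8 : Real.log N ^ η ≤ Real.log N := by
                  have := Real.rpow_le_rpow_of_exponent_le hL2 hη1.le
                  rwa [Real.rpow_one] at this
                have h9 : (N : ℝ) ^ (δ₁ / 3) ≤ (N : ℝ) ^ (δ₁ / 2) :=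
                  Real.rpow_le_rpow_of_exponent_le hN1.le (by linarith)
                have h10 : Real.log N ≤ (N : ℝ) ^ (δ₁ / 3) := by nlinarith
                linarith
              have h8 : (N : ℝ) ^ δ₁ = (N : ℝ) ^ (δ₁ / 2) * (N : ℝ) ^ (δ₁ / 2) := by
                rw [← Real.rpow_add hN0]; congr 1; ring
              rw [h8]
              exact mul_le_mul (h5.trans h7) h6.le (Nat.cast_nonneg _) (by positivity)
            · have h7 : ((y : ℤ)) ^ p + (c : ℤ) ^ k = (x : ℤ) ^ p := by exact_mod_cast heq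
              linarith
    · subst hp
      rcases heq with heq | heq
      · left; right
        refine ⟨hc1, hcN, k, hk1, x ^ 2, y ^ 2, Nat.one_le_pow _ _ hx, Nat.one_le_pow _ _ hy,
          Nat.Coprime.pow _ _ hxy, ?_⟩
        have ex : (x ^ 2) ^ 2 = x ^ 4 := by ring
        have ey : (y ^ 2) ^ 2 = y ^ 4 := by ring
        rw [ex, ey]
        exact heq
      · left; left; right
        exact ⟨hc1, hcN, k, hk1, x, y, hy, hxy, heq⟩
  -- the count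
  have hfin : ((((((S₁ ∪ S₂) ∪ S₃) ∪ S₄) ∪ S₅) ∪ S₆) ∪ ({2} : Set ℕ)).Finite :=
    ((((((finite_set N _).union (finite_set N _)).union (finite_set N _)).union
      (finite_set N _)).union (finite_set N _)).union (finite_set N _)).union (Set.finite_singleton 2)
  have hcard : B.ncard ≤ S₁.ncard + S₂.ncard + S₃.ncard + S₄.ncard + S₅.ncard + S₆.ncard + 1 := by
    refine (Set.ncard_le_ncard hsub hfin).trans ?_
    refine (Set.ncard_union_le _ _).trans ?_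
    rw [Set.ncard_singleton]
    have i1 := Set.ncard_union_le (((((S₁ ∪ S₂) ∪ S₃) ∪ S₄) ∪ S₅)) S₆
    have i2 := Set.ncard_union_le ((((S₁ ∪ S₂) ∪ S₃) ∪ S₄)) S₅
    have i3 := Set.ncard_union_le (((S₁ ∪ S₂) ∪ S₃)) S₄
    have i4 := Set.ncard_union_le ((S₁ ∪ S₂)) S₃
    have i5 := Set.ncard_union_le S₁ S₂
    omega
  have hcardr : (B.ncard : ℝ) ≤ S₁.ncard + S₂.ncard + S₃.ncard + S₄.ncard + S₅.ncard + S₆.ncard + 1 := by
    exact_mod_cast hcard
  set Q : ℝ := (N : ℝ) / Real.log N ^ δ with hQ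
  have absb : ∀ {C u v : ℝ}, 0 ≤ u → u ≤ v → C * u ≤ |C| * v := by
    intro C u v hu huv
    exact (mul_le_mul_of_nonneg_right (le_abs_self C) hu).trans
      (mul_le_mul_of_nonneg_left huv (abs_nonneg C))
  have b1 : (S₁.ncard : ℝ) ≤ |C₁| * E₁ * Q := by
    have h5 := g1 N (by omega)
    have h6 := e1 N hN
    rw [mul_div_assoc, ← hQ] at h6
    have h7 := absb (C := C₁) (by positivity) h6
    calc (S₁.ncard : ℝ) ≤ C₁ * (N : ℝ) ^ (1 - δ₁) := h5
      _ ≤ |C₁| * (E₁ * Q) := h7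
      _ = _ := by ring
  have b2 : (S₂.ncard : ℝ) ≤ |C₂| * (E₂ + (12 / δ₁) ^ 2 * 4 * E₂') * Q := by
    have h5 := g2 N K₀ hN (hL1.trans hK₀le)
    have h6 := e2 N hN
    have h7 := e2' N hN
    rw [mul_div_assoc, ← hQ] at h6 h7
    have h8 : (N : ℝ) * (1 + Real.log N) ^ 2 / K₀ ≤ (12 / δ₁) ^ 2 * 4 * (E₂' * Q) := by
      have h9 : Real.log N ≤ (N : ℝ) ^ (δ₁ / 12) / (δ₁ / 12) :=
        Real.log_le_rpow_div hN0.le (by positivity)
      have h10 : (1 + Real.log N) ^ 2 ≤ 4 * ((12 / δ₁) ^ 2 * (N : ℝ) ^ (δ₁ / 6)) := by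
        have h11 : (1 + Real.log N) ^ 2 ≤ 4 * Real.log N ^ 2 := by nlinarith
        have h12 : Real.log N ^ 2 ≤ ((N : ℝ) ^ (δ₁ / 12) / (δ₁ / 12)) ^ 2 :=
          pow_le_pow_left₀ hl.le h9 2
        have h13 : ((N : ℝ) ^ (δ₁ / 12) / (δ₁ / 12)) ^ 2 = (12 / δ₁) ^ 2 * (N : ℝ) ^ (δ₁ / 6) := by
          rw [div_pow, ← Real.rpow_natCast, ← Real.rpow_mul hN0.le]
          have : δ₁ / 12 * ((2 : ℕ) : ℝ) = δ₁ / 6 := by push_cast; ring
          rw [this]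
          field_simp
        rw [h13] at h12
        linarith
      have hK₀pos : (0 : ℝ) < (N : ℝ) ^ (δ₁ / 3) := Real.rpow_pos_of_pos hN0 _
      calc (N : ℝ) * (1 + Real.log N) ^ 2 / K₀
          ≤ (N : ℝ) * (1 + Real.log N) ^ 2 / (N : ℝ) ^ (δ₁ / 3) := by
            apply div_le_div_of_nonneg_left (by positivity) hK₀pos hK₀le
        _ ≤ (N : ℝ) * (4 * ((12 / δ₁) ^ 2 * (N : ℝ) ^ (δ₁ / 6))) / (N : ℝ) ^ (δ₁ / 3) := by
            apply div_le_div_of_nonneg_right _ hK₀pos.le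
            exact mul_le_mul_of_nonneg_left h10 hN0.le
        _ = (12 / δ₁) ^ 2 * 4 * (N : ℝ) ^ (1 - δ₁ / 6) := by
            have h14 : (N : ℝ) ^ (1 - δ₁ / 6) = N * (N : ℝ) ^ (δ₁ / 6) / (N : ℝ) ^ (δ₁ / 3) := by
              rw [eq_div_iff hK₀pos.ne', ← Real.rpow_add hN0]
              nth_rewrite 2 [← Real.rpow_one (N : ℝ)]
              rw [← Real.rpow_add hN0]
              congr 1; ring
            rw [h14]; ring
        _ ≤ (12 / δ₁) ^ 2 * 4 * (E₂' * Q) := mul_le_mul_of_nonneg_left h7 (by positivity)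
    have h9 : (N : ℝ) ^ (1 / 2 : ℝ) ≤ E₂ * Q := by
      have h10 : (1 : ℝ) - 1 / 2 = 1 / 2 := by norm_num
      rwa [h10] at h6
    have h10 := absb (C := C₂) (u := (N : ℝ) ^ (1 / 2 : ℝ) + (N : ℝ) * (1 + Real.log N) ^ 2 / K₀)
      (v := E₂ * Q + (12 / δ₁) ^ 2 * 4 * (E₂' * Q)) (by positivity) (by linarith)
    calc (S₂.ncard : ℝ) ≤ _ := h5
      _ ≤ _ := h10
      _ = _ := by ring
  have b3 : (S₃.ncard : ℝ) ≤ |C₃| * E₃ * Q := by
    have h5 := g3 N hN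
    have h6 := e3 N hN
    rw [mul_div_assoc, ← hQ] at h6
    have h7 := absb (C := C₃) (by positivity) h6
    calc (S₃.ncard : ℝ) ≤ C₃ * (N : ℝ) ^ (1 - δ₁ / 2 / 4) := h5
      _ ≤ |C₃| * (E₃ * Q) := h7
      _ = _ := by ring
  have conv : ∀ {δ' : ℝ}, δ ≤ δ' → (N : ℝ) / Real.log N ^ δ' ≤ Q := by
    intro δ' h
    rw [hQ]
    apply div_le_div_of_nonneg_left hN0.le hlδ
    exact Real.rpow_le_rpow_of_exponent_le hL2 h
  have b4 : (S₄.ncard : ℝ) ≤ |C₄| * Q := by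
    have h5 := g4 N hN
    rw [mul_div_assoc] at h5
    exact h5.trans (absb (by positivity) (conv (min_le_left _ _)))
  have b5 : (S₅.ncard : ℝ) ≤ |C₅| * E₅ * Q := by
    have h5 := g5 N (by omega)
    have h6 := e5 N hN
    rw [mul_div_assoc, ← hQ] at h6
    have h7 := absb (C := C₅) (by positivity) h6
    calc (S₅.ncard : ℝ) ≤ C₅ * (N : ℝ) ^ (1 - δ₅) := h5
      _ ≤ |C₅| * (E₅ * Q) := h7
      _ = _ := by ring
  have b6 : (S₆.ncard : ℝ) ≤ |C₆| * Q := by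
    have h5 := g6 N hN
    rw [mul_div_assoc] at h5
    exact h5.trans (absb (by positivity) (conv (min_le_right _ _)))
  have b7 : (1 : ℝ) ≤ E₇ * Q := by
    have h6 := e7 N hN
    rw [mul_div_assoc, ← hQ, sub_self, Real.rpow_zero] at h6
    exact h6
  have b8 : 0 ≤ Real.log N₀ ^ δ * Q := by positivity
  have htot : (|C₁| * E₁ + |C₂| * (E₂ + (12 / δ₁) ^ 2 * 4 * E₂') + |C₃| * E₃ + |C₄| + |C₅| * E₅ +
      |C₆| + E₇ + Real.log N₀ ^ δ) * Q = |C₁| * E₁ * Q + |C₂| * (E₂ + (12 / δ₁) ^ 2 * 4 * E₂') * Q +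
      |C₃| * E₃ * Q + |C₄| * Q + |C₅| * E₅ * Q + |C₆| * Q + E₇ * Q + Real.log N₀ ^ δ * Q := by ring
  rw [htot]
  linarith

end Pool.Agent.Work.MP_2738db_nt_ZZ.helper16
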