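import Pool.Agent.Work.MP_2738db_nt_Y_helper16.AllK
import Pool.Agent.Work.MP_2738db_nt_ZZ_helper16.FINZ
import Pool.Agent.Work.MP_2738db_nt_ZZ_helper12.O3
import Pool.Agent.Work.MP_2738db_nt_ZZ_helper15.M4
import Pool.Agent.Work.MP_2738db_nt_ZZ_helper15.O4
import Pool.Agent.Work.MP_2738db_nt_ZZ_helper2.SZP
import Pool.Agent.Work.MP_2738db_nt_ZZ_helper23.O2
import Pool.Agent.Work.MP_2738db_nt_ZZ_helper23.STP
import Pool.Agent.Work.MP_2738db_nt_ZZ_helper45.BTR
import Pool.Agent.Work.MP_2738db_nt_ZZ_helper45.LSV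
import Pool.Agent.Work.MP_2738db_nt_ZZ_helper46.P2
import Pool.Agent.Work.MP_2738db_nt_ZZ_helper48.FEW
import Pool.Agent.Work.MP_2738db_nt_ZZ_helper48.O1
import Pool.Agent.Work.MP_2738db_nt_ZZ_helper83.STR
import Pool.Agent.Work.MP_2738db_nt_ZZ_helper92.NU
import Pool.Agent.Work.MP_2738db_nt_ZZ_helper92.STA
import Pool.Agent.Work.MP_2738db_nt_ZZ_helper94.O1A

set_option autoImplicit false

/-!
Assembly of the blocks of the THIRD BASE theorem.
-/

namespace Pool.Agent.Work.MP_2738db_nt_ZZ.helper16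

open Pool.Agent.Work.MP_2738db_nt_ZZ

theorem all_o1 : Stmt_O1 :=
  helper48.o1 helper83.str helper2.szp
    (helper94.o1a helper45.lsv (helper92.nu (helper23.stp helper92.sta)))

theorem all_o2 : Stmt_O2 := helper23.o2 helper83.str helper2.szp

theorem all_o3 : Stmt_O3 :=
  helper12.o3 helper83.str Pool.Agent.Work.MP_2738db_nt_Y.helper16.all_a3

theorem all_o4 : Stmt_O4 := helper15.o4 helper83.str helper45.btr helper48.few

theorem main_zz : Stmt_ZZ :=
  finz all_o1 all_o2 all_o3 all_o4 helper15.m4 helper46.stmt_P2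

end Pool.Agent.Work.MP_2738db_nt_ZZ.helper16
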