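import Pool.Agent.Work.MP_2738db_nt_ZZ.Interface

/-!
COPRIME EXPONENTS: from the THIRD BASE theorem and the two parts of the case `gcd (m, n) = 2`.
-/

set_option autoImplicit false

namespace Pool.Agent.Work.MP_2738db_nt_ZZ.helper16

open Pool.Agent.Work.MP_2738db_nt_ZZ

/-- **M2**: differences of two coprime squares, one of which is a higher power. -/
def Stmt_M2 : Prop :=
  ∃ C δ : ℝ, 0 < δ ∧ ∀ N : ℕ, 2 ≤ N →
    (({c : ℕ | 1 ≤ c ∧ c ≤ N ∧ ∃ k X Y l z : ℕ, 1 ≤ k ∧ 1 ≤ Y ∧ Nat.Coprime X Y ∧ l.Prime ∧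
      Y ^ 2 + c ^ k = X ^ 2 ∧ (X = z ^ l ∨ Y = z ^ l)}.ncard : ℕ) : ℝ) ≤
      C * N / Real.log N ^ δ

/-- **COPRIME EXPONENTS** -/
def Stmt_CE : Prop :=
  ∃ C δ : ℝ, 0 < δ ∧ ∀ N : ℕ, 2 ≤ N →
    (({c : ℕ | 1 ≤ c ∧ c ≤ N ∧ ∃ a b m n k : ℕ, 1 ≤ a ∧ 1 ≤ b ∧ Nat.Coprime a b ∧ 1 ≤ m ∧
      1 ≤ n ∧ 1 ≤ k ∧ Nat.gcd m n ≠ 1 ∧ ¬ (m = 2 ∧ n = 2) ∧
      (a ^ m + b ^ n = c ^ k ∨ b ^ n + c ^ k = a ^ m ∨ c ^ k + a ^ m = b ^ n)}.ncard : ℕ) : ℝ) ≤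
      C * N / Real.log N ^ δ

lemma fin_set (N : ℕ) (P : ℕ → Prop) : {c : ℕ | 1 ≤ c ∧ c ≤ N ∧ P c}.Finite :=
  (Set.finite_Icc 1 N).subset (fun _ hc => ⟨hc.1, hc.2.1⟩)

lemma ratio_mono {N : ℕ} (hN : 3 ≤ N) {C δ δ' : ℝ} (h : δ' ≤ δ) :
    C * N / Real.log N ^ δ ≤ |C| * (N / Real.log N ^ δ') := by
  have hN0 : (0 : ℝ) < N := by exact_mod_cast (by omega : 0 < N)
  have hl : 1 ≤ Real.log N := by
    rw [Real.le_log_iff_exp_le hN0]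
    have h3 : (3 : ℝ) ≤ N := by exact_mod_cast hN
    have := Real.exp_one_lt_d9
    linarith
  have hl0 : 0 < Real.log N := by linarith
  have h1 : Real.log N ^ δ' ≤ Real.log N ^ δ := Real.rpow_le_rpow_of_exponent_le hl h
  have h2 : 0 < Real.log N ^ δ' := Real.rpow_pos_of_pos hl0 _
  have h3 : (N : ℝ) / Real.log N ^ δ ≤ N / Real.log N ^ δ' :=
    div_le_div_of_nonneg_left hN0.le h2 h1
  have h4 : 0 ≤ (N : ℝ) / Real.log N ^ δ := by positivity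
  rw [mul_div_assoc]
  calc C * (N / Real.log N ^ δ) ≤ |C| * (N / Real.log N ^ δ) :=
        mul_le_mul_of_nonneg_right (le_abs_self C) h4
    _ ≤ |C| * (N / Real.log N ^ δ') := mul_le_mul_of_nonneg_left h3 (abs_nonneg C)

theorem ce (hz : Stmt_ZZ) (hp : Stmt_P2) (hm : Stmt_M2) : Stmt_CE := by
  obtain ⟨C₁, δ₁, hδ₁, h1⟩ := hz
  obtain ⟨C₂, δ₂, hδ₂, h2⟩ := hp
  obtain ⟨C₃, δ₃, hδ₃, h3⟩ := hm
  set δ := min δ₁ (min δ₂ δ₃) with hδ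
  have hδ0 : 0 < δ := lt_min hδ₁ (lt_min hδ₂ hδ₃)
  refine ⟨|C₁| + |C₂| + |C₃| + 1, δ, hδ0, ?_⟩
  intro N hN
  set S := {c : ℕ | 1 ≤ c ∧ c ≤ N ∧ ∃ a b m n k : ℕ, 1 ≤ a ∧ 1 ≤ b ∧ Nat.Coprime a b ∧ 1 ≤ m ∧
      1 ≤ n ∧ 1 ≤ k ∧ Nat.gcd m n ≠ 1 ∧ ¬ (m = 2 ∧ n = 2) ∧
      (a ^ m + b ^ n = c ^ k ∨ b ^ n + c ^ k = a ^ m ∨ c ^ k + a ^ m = b ^ n)} with hS
  set S₁ := {c : ℕ | 1 ≤ c ∧ c ≤ N ∧ ∃ a b m n k : ℕ, 1 ≤ a ∧ 1 ≤ b ∧ Nat.Coprime a b ∧ 1 ≤ m ∧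
      1 ≤ n ∧ 1 ≤ k ∧ 3 ≤ Nat.gcd m n ∧ (a ^ m + b ^ n = c ^ k ∨ b ^ n + c ^ k = a ^ m)} with hS₁
  set S₂ := {c : ℕ | 1 ≤ c ∧ c ≤ N ∧ ∃ k : ℕ, 1 ≤ k ∧ Pl 2 c k} with hS₂
  set S₃ := {c : ℕ | 1 ≤ c ∧ c ≤ N ∧ ∃ k X Y l z : ℕ, 1 ≤ k ∧ 1 ≤ Y ∧ Nat.Coprime X Y ∧ l.Prime ∧
      Y ^ 2 + c ^ k = X ^ 2 ∧ (X = z ^ l ∨ Y = z ^ l)} with hS₃
  have hsub : S ⊆ (S₁ ∪ S₂) ∪ S₃ := by
    -- the two arrangements
    have key : ∀ c a b m n k : ℕ, 1 ≤ c → c ≤ N → 1 ≤ a → 1 ≤ b → Nat.Coprime a b → 1 ≤ m →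
        1 ≤ n → 1 ≤ k → Nat.gcd m n ≠ 1 → ¬ (m = 2 ∧ n = 2) →
        (a ^ m + b ^ n = c ^ k ∨ b ^ n + c ^ k = a ^ m) → c ∈ (S₁ ∪ S₂) ∪ S₃ := by
      intro c a b m n k hc1 hcN ha hb hab hm hn hk hg h22 heq
      by_cases h3g : 3 ≤ Nat.gcd m n
      · left; left
        exact ⟨hc1, hcN, a, b, m, n, k, ha, hb, hab, hm, hn, hk, h3g, heq⟩
      · have hg2 : Nat.gcd m n = 2 := by
          have : 0 < Nat.gcd m n := Nat.gcd_pos_of_pos_left _ (by omega)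
          omega
        obtain ⟨m', hm'⟩ : 2 ∣ m := hg2 ▸ Nat.gcd_dvd_left m n
        obtain ⟨n', hn'⟩ : 2 ∣ n := hg2 ▸ Nat.gcd_dvd_right m n
        have ea : a ^ m = (a ^ m') ^ 2 := by rw [hm', ← pow_mul, mul_comm]
        have eb : b ^ n = (b ^ n') ^ 2 := by rw [hn', ← pow_mul, mul_comm]
        have hcop : Nat.Coprime (a ^ m') (b ^ n') := Nat.Coprime.pow _ _ hab
        rcases heq with heq | heq
        · left; right
          refine ⟨hc1, hcN, k, hk, a ^ m', b ^ n', Nat.one_le_pow _ _ ha, Nat.one_le_pow _ _ hb,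
            hcop, ?_⟩
          rw [← ea, ← eb]; exact heq
        · right
          have hex : ∃ l z : ℕ, l.Prime ∧ (a ^ m' = z ^ l ∨ b ^ n' = z ^ l) := by
            by_cases hm1 : m' = 1
            · have hn1 : n' ≠ 1 := by
                rintro rfl
                exact h22 ⟨by omega, by omega⟩
              obtain ⟨l, hl, hln⟩ := Nat.exists_prime_and_dvd hn1
              obtain ⟨s, hs⟩ := hln
              exact ⟨l, b ^ s, hl, Or.inr (by rw [hs, ← pow_mul, mul_comm])⟩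
            · obtain ⟨l, hl, hlm⟩ := Nat.exists_prime_and_dvd hm1
              obtain ⟨s, hs⟩ := hlm
              exact ⟨l, a ^ s, hl, Or.inl (by rw [hs, ← pow_mul, mul_comm])⟩
          obtain ⟨l, z, hl, hz⟩ := hex
          refine ⟨hc1, hcN, k, a ^ m', b ^ n', l, z, hk, Nat.one_le_pow _ _ hb, hcop, hl, ?_, hz⟩
          rw [← ea, ← eb]; exact heq
    rintro c ⟨hc1, hcN, a, b, m, n, k, ha, hb, hab, hm, hn, hk, hg, h22, heq⟩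
    rcases heq with heq | heq | heq
    · exact key c a b m n k hc1 hcN ha hb hab hm hn hk hg h22 (Or.inl heq)
    · exact key c a b m n k hc1 hcN ha hb hab hm hn hk hg h22 (Or.inr heq)
    · refine key c b a n m k hc1 hcN hb ha hab.symm hn hm hk (by rwa [Nat.gcd_comm])
        (fun h => h22 ⟨h.2, h.1⟩) (Or.inr ?_)
      rw [add_comm]; exact heq
  have hfin : ((S₁ ∪ S₂) ∪ S₃).Finite := ((fin_set N _).union (fin_set N _)).union (fin_set N _)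
  have hcard : S.ncard ≤ S₁.ncard + S₂.ncard + S₃.ncard := by
    refine (Set.ncard_le_ncard hsub hfin).trans ?_
    refine (Set.ncard_union_le _ _).trans ?_
    have := Set.ncard_union_le S₁ S₂
    omega
  have hcardr : (S.ncard : ℝ) ≤ S₁.ncard + S₂.ncard + S₃.ncard := by exact_mod_cast hcard
  by_cases hN3 : 3 ≤ N
  · have b1 : (S₁.ncard : ℝ) ≤ |C₁| * (N / Real.log N ^ δ) :=
      (h1 N hN).trans (ratio_mono hN3 (min_le_left _ _))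
    have b2 : (S₂.ncard : ℝ) ≤ |C₂| * (N / Real.log N ^ δ) :=
      (h2 N hN).trans (ratio_mono hN3 ((min_le_right _ _).trans (min_le_left _ _)))
    have b3 : (S₃.ncard : ℝ) ≤ |C₃| * (N / Real.log N ^ δ) :=
      (h3 N hN).trans (ratio_mono hN3 ((min_le_right _ _).trans (min_le_right _ _)))
    have hl : 0 ≤ Real.log N := Real.log_natCast_nonneg N
    have hq : 0 ≤ (N : ℝ) / Real.log N ^ δ := by positivity
    rw [mul_div_assoc]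
    nlinarith
  · have hN2 : N = 2 := by omega
    have hS2 : S.ncard ≤ 2 := by
      have : S ⊆ Set.Icc 1 2 := fun c hc => ⟨hc.1, by have := hc.2.1; omega⟩
      calc S.ncard ≤ (Set.Icc 1 2 : Set ℕ).ncard := Set.ncard_le_ncard this (Set.finite_Icc 1 2)
        _ = 2 := by
          rw [← Finset.coe_Icc, Set.ncard_coe_finset]; rfl
    have hl1 : Real.log 2 ≤ 1 := by have := Real.log_two_lt_d9; linarith
    have hl0 : 0 < Real.log 2 := Real.log_pos (by norm_num)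
    have hpow : Real.log 2 ^ δ ≤ 1 := Real.rpow_le_one hl0.le hl1 hδ0.le
    have hpow0 : 0 < Real.log 2 ^ δ := Real.rpow_pos_of_pos hl0 _
    have h5 : (S.ncard : ℝ) ≤ 2 := by exact_mod_cast hS2
    rw [hN2]
    push_cast
    rw [le_div_iff₀ hpow0]
    have a1 := abs_nonneg C₁
    have a2 := abs_nonneg C₂
    have a3 := abs_nonneg C₃
    have h6 : (0 : ℝ) ≤ S.ncard := Nat.cast_nonneg _
    nlinarith

end Pool.Agent.Work.MP_2738db_nt_ZZ.helper16
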